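import Mathlib
import Pool.Agent.Y666.SP.Stm

/-!
# Project SP (helper666): near germs are finitely many

`finn : S_FINN`.
-/

set_option autoImplicit false

namespace Pool.Agent.Y237.SP

open Pool.Agent.Y666.SP

section

variable {α : Type} [PartialOrder α]

/-- finitely many elements of a germ have a lower bound in the germ -/
theorem low (F : Germ α) (z : Germ α → α) (T : Finset (Germ α)) :
    (∀ G ∈ T, z G ∈ F.carrier) → ∀ b ∈ F.carrier,
      ∃ y ∈ F.carrier, y ≤ b ∧ ∀ G ∈ T, y ≤ z G := by
  classical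
  induction T using Finset.induction_on with
  | empty => intro _ b hb; exact ⟨b, hb, le_rfl, by simp⟩
  | insert G T hG ih =>
    intro hz b hb
    obtain ⟨y, hy, hyb, hyT⟩ := ih (fun H hH => hz H (Finset.mem_insert_of_mem hH)) b hb
    obtain ⟨y', hy', h1, h2⟩ := F.dir y hy (z G) (hz G (Finset.mem_insert_self _ _))
    refine ⟨y', hy', h1.le.trans hyb, fun H hH => ?_⟩
    rcases Finset.mem_insert.1 hH with rfl | hH
    · exact h2.le
    · exact h1.le.trans (hyT H hH)

/-- germs which are pairwise not `gll`-related have an antichain of representatives -/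
theorem key (n : ℕ) : ∀ T : Finset (Germ α), T.card = n → (∀ F ∈ T, ∀ G ∈ T, ¬ gll F G) →
    ∀ b : Germ α → α, (∀ F ∈ T, b F ∈ F.carrier) →
    ∃ y : Germ α → α, (∀ F ∈ T, y F ∈ F.carrier ∧ y F ≤ b F) ∧
      ∀ F ∈ T, ∀ G ∈ T, F ≠ G → ¬ y F ≤ y G := by
  classical
  induction n with
  | zero =>
    intro T hT _ b _
    rw [Finset.card_eq_zero] at hT
    subst hT
    exact ⟨b, by simp, by simp⟩
  | succ n ih =>
    intro T hT hg b hb
    have hne : T.Nonempty := by
      rw [← Finset.card_pos]
      omega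
    obtain ⟨F, hF⟩ := T.exists_minimal hne
    have hFT : F ∈ T := hF.prop
    have hα : Nonempty α := ⟨b F⟩
    have h1 : ∀ G ∈ T.erase F, ∃ z ∈ F.carrier, z ∉ G.carrier := by
      intro G hG
      rw [Finset.mem_erase] at hG
      by_contra hcon
      push Not at hcon
      exact hG.1 (le_antisymm (show G ≤ F from hcon) (hF.le_of_le hG.2 hcon))
    choose! z hz1 hz2 using h1
    obtain ⟨yF, hyF, hyb, hyz⟩ := low F z (T.erase F) hz1 (b F) (hb F hFT)
    have h2 : ∀ G ∈ T.erase F, yF ∉ G.carrier := fun G hG h =>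
      hz2 G hG (G.up yF h _ (hyz G hG))
    have h3 : ∀ G ∈ T.erase F, ∃ b' ∈ G.carrier, b' ≤ b G ∧ ¬ yF ≤ b' := by
      intro G hG
      have hGT := Finset.mem_of_mem_erase hG
      have := hg F hFT G hGT
      rw [gll] at this
      push Not at this
      obtain ⟨q, hq, hyq⟩ := this yF hyF
      obtain ⟨b', hb', e1, e2⟩ := G.dir (b G) (hb G hGT) q hq
      exact ⟨b', hb', e1.le, fun h => hyq (lt_of_le_of_lt h e2)⟩
    choose! b' hb1 hb2 hb3 using h3
    obtain ⟨y, hy1, hy2⟩ := ih (T.erase F) (by rw [Finset.card_erase_of_mem hFT]; omega)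
      (fun G hG H hH => hg G (Finset.mem_of_mem_erase hG) H (Finset.mem_of_mem_erase hH)) b' hb1
    refine ⟨fun G => if G = F then yF else y G, fun G hG => ?_, fun G hG H hH hne => ?_⟩
    · by_cases e : G = F
      · subst e
        simpa using ⟨hyF, hyb⟩
      · have hG' := Finset.mem_erase.2 ⟨e, hG⟩
        simpa [e] using ⟨(hy1 G hG').1, (hy1 G hG').2.trans (hb2 G hG')⟩
    · by_cases e : G = F
      · subst e
        have hH' : H ∈ T.erase G := Finset.mem_erase.2 ⟨Ne.symm hne, hH⟩
        simp only [if_true, if_neg (Ne.symm hne)]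
        exact fun h => hb3 H hH' (h.trans (hy1 H hH').2)
      · have hG' : G ∈ T.erase F := Finset.mem_erase.2 ⟨e, hG⟩
        by_cases e' : H = F
        · subst e'
          simp only [if_true, if_neg e]
          exact fun h => h2 G hG' (G.up _ (hy1 G hG').1 _ h)
        · simp only [if_neg e, if_neg e']
          exact hy2 G hG' H (Finset.mem_erase.2 ⟨e', hH⟩) hne

end

theorem finn : S_FINN := by
  classical
  intro α _ w hw x
  by_contra hinf
  obtain ⟨T, hT, hcard⟩ := Set.Infinite.exists_subset_card_eq hinf (w + 1)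
  have hg : ∀ F ∈ T, ∀ G ∈ T, ¬ gll F G := by
    rintro F hF G hG ⟨p, hp, hq⟩
    exact (hT hG).2 ⟨p, (hT hF).1 hp, hq⟩
  obtain ⟨y, -, hy⟩ := key (w + 1) T hcard hg (fun F => F.nonempty.some) fun F _ => F.nonempty.some_mem
  have hinj : Set.InjOn y T := by
    intro F hF G hG h
    by_contra hne
    exact hy F hF G hG hne h.le
  have hc := hw (T.image y) (by
    intro a ha b hb hab h
    simp only [Finset.coe_image, Set.mem_image, Finset.mem_coe] at ha hb
    obtain ⟨F, hF, rfl⟩ := ha
    obtain ⟨G, hG, rfl⟩ := hb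
    exact hy F hF G hG (fun e => hab (by rw [e])) h)
  rw [Finset.card_image_of_injOn hinj, hcard] at hc
  omega

end Pool.Agent.Y237.SP
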