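import Mathlib
import Pool.Agent.Y666.SP.Stm

/-!
# Project SP (helper666): the reduction with the greedy assignment

`red : S_SYS → S_SEL → S_BASE → S_FREE → S_RED`.
-/

set_option autoImplicit false

namespace Pool.Agent.Y237.SP

open Pool.Agent.Y666.SP

/-- an injective choice from a sequence of infinite sets -/
theorem greedy {β : Type} (T : ℕ → Set β) (hT : ∀ n, (T n).Infinite) :
    ∃ φ : ℕ → β, Function.Injective φ ∧ ∀ n, φ n ∈ T n := by
  classical
  have h : ∀ (n : ℕ) (s : Finset β), ∃ a ∈ T n, a ∉ s := fun n s => (hT n).exists_notMem_finset s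
  choose c hc1 hc2 using h
  let s : ℕ → Finset β := fun n => Nat.rec ∅ (fun n s => insert (c n s) s) n
  have hs : ∀ n, s (n + 1) = insert (c n (s n)) (s n) := fun n => rfl
  have hm : Monotone s := monotone_nat_of_le_succ fun n => by
    rw [hs]; exact Finset.subset_insert _ _
  refine ⟨fun n => c n (s n), ?_, fun n => hc1 _ _⟩
  have key : ∀ m n, m < n → c m (s m) ≠ c n (s n) := fun m n hmn he => by
   have h1 : c m (s m) ∈ s (m + 1) := by rw [hs]; exact Finset.mem_insert_self _ _
   have h2 : c m (s m) ∈ s n := hm hmn h1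
   rw [he] at h2
   exact hc2 n (s n) h2
  intro m n he
  rcases lt_trichotomy m n with h | h | h
  · exact absurd he (key m n h)
  · exact h
  · exact absurd he.symm (key n m h)

/-- an injective choice from a countable family of infinite sets -/
theorem greedy' {α β : Type} [Countable α] (T : α → Set β) (hT : ∀ x, (T x).Infinite) :
    ∃ φ : α → β, Function.Injective φ ∧ ∀ x, φ x ∈ T x := by
  rcases isEmpty_or_nonempty α with he | hne
  · exact ⟨fun x => (he.false x).elim, fun x => (he.false x).elim, fun x => (he.false x).elim⟩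
  · obtain ⟨e, he⟩ := exists_injective_nat α
    obtain ⟨φ, h1, h2⟩ := greedy (fun n => T (Function.invFun e n)) fun n => hT _
    refine ⟨fun x => φ (e x), h1.comp he, fun x => ?_⟩
    have := h2 (e x)
    simp only [Function.leftInverse_invFun he x] at this
    exact this

theorem red (h1 : S_SYS) (h2 : S_SEL) (h3 : S_BASE) (h4 : S_FREE) : S_RED := by
  classical
  intro α _ _ w hw hstar
  obtain ⟨G, hG1, hG2, hG3⟩ := h2 (Germ α) gll (h1 α w hw)
  have hG : Sel G := ⟨hG1, hG2, hG3⟩
  obtain ⟨C, f, hB⟩ := h3 α G hG hstar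
  by_cases hall : ∀ x, x ∈ BB G
  · exact ⟨C, Set.subset_univ _, hB.chain, f, fun x _ => hB.map x (hall x), hB.fix,
      fun x _ y _ => hB.anti x (hall x) y (hall y)⟩
  push Not at hall
  obtain ⟨x₀, hx₀⟩ := hall
  have hT := h4 α w hw G C f hG hB
  obtain ⟨φ, hφ, hφT⟩ := greedy' (fun x : α =>
    if x ∈ BB G then {c | c ∈ C ∧ ∀ z ∈ BB G, f z = c → ¬ x₀ ≤ z ∧ ¬ z ≤ x₀}
    else {c | c ∈ C ∧ ∀ z ∈ BB G, f z = c → ¬ x ≤ z ∧ ¬ z ≤ x}) (fun x => by
      by_cases hx : x ∈ BB G
      · simpa only [if_pos hx] using hT x₀ hx₀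
      · simpa only [if_neg hx] using hT x hx)
  have hφ' : ∀ x, x ∉ BB G → φ x ∈ C ∧ ∀ z ∈ BB G, f z = φ x → ¬ x ≤ z ∧ ¬ z ≤ x := by
    intro x hx
    have := hφT x
    simp only [if_neg hx] at this
    exact this
  refine ⟨C, Set.subset_univ _, hB.chain, fun x => if x ∈ BB G then f x else φ x,
    fun x _ => ?_, fun c hc => ?_, fun x _ y _ hxy => ?_⟩
  · by_cases hx : x ∈ BB G
    · simpa only [if_pos hx] using hB.map x hx
    · simpa only [if_neg hx] using (hφ' x hx).1
  · simp only [if_pos (hB.sub hc)]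
    exact hB.fix c hc
  · by_cases hx : x ∈ BB G
    · by_cases hy : y ∈ BB G
      · simp only [if_pos hx, if_pos hy] at hxy
        exact hB.anti x hx y hy hxy
      · simp only [if_pos hx, if_neg hy] at hxy
        exact fun h => ((hφ' y hy).2 x hx hxy).2 h.le
    · by_cases hy : y ∈ BB G
      · simp only [if_neg hx, if_pos hy] at hxy
        exact fun h => ((hφ' x hx).2 y hy hxy.symm).1 h.le
      · simp only [if_neg hx, if_neg hy] at hxy
        rw [hφ hxy]
        exact lt_irrefl _

end Pool.Agent.Y237.SP
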