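import Mathlib
import Pool.Agent.Y666.SP.Stm

/-!
# Project SP (helper666): every nonempty region is tame

`tree : S_UP → S_WPT → S_TREE`.
-/

set_option autoImplicit false

namespace Pool.Agent.Y237.SP

open Pool.Agent.Y666.SP

section

variable {Φ : Type} [PartialOrder Φ] {ll : Φ → Φ → Prop}

/-- the pairs whose region is nonempty and not tame -/
def W (ll : Φ → Φ → Prop) : Type :=
  {ρ : Set Φ × Set Φ // (Reg ll ρ.1 ρ.2).Nonempty ∧ ¬ Tame ll (Reg ll ρ.1 ρ.2)}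

/-- the region of a pair -/
def rg (ρ : W ll) : Set Φ := Reg ll ρ.1.1 ρ.1.2

theorem tree_aux (hU : S_UP) (hP : S_WPT) (hs : Sys ll) (ρ₀ : W ll) : Tame ll (rg ρ₀) := by
  have hch : ∀ ρ : W ll, ∃ (d : Φ) (b : ℕ → Φ) (c : ℕ → W ll), d ∈ rg ρ ∧ (∀ n, rg (c n) ⊆ rg ρ) ∧
      (∀ n, ∀ h ∈ rg (c n), ll (b (n + 1)) h ∧ ll h (b n)) ∧ (∀ n, ll d (b n)) ∧
      (∀ n, ll (b (n + 1)) (b n)) ∧ (∀ x, (∀ n, x ≤ b n) → x ≤ d) := by
    intro ρ
    obtain ⟨d, hd, Ln, Un, b, h1, h2, h3, h4, h5, h6⟩ := hP Φ ll hs ρ.1.1 ρ.1.2 ρ.2.1 ρ.2.2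
    refine ⟨d, b, fun n => ⟨(insert (b (n + 1)) (Ln n), Un n), hU Φ ll hs _ _ (h2 n) _ (h5 n)⟩, hd,
      fun n => ?_, fun n h hh => ⟨?_, ?_⟩, fun n => (h3 n).2 _ (h4 n), fun n => (h5 n).2 _ (h4 n), h6⟩
    · intro x hx
      exact h1 n ⟨fun l hl => hx.1 l (Set.mem_insert_of_mem _ hl), hx.2⟩
    · exact hh.1 _ (Set.mem_insert _ _)
    · exact hh.2 _ (h4 n)
  choose d b c hd hc hcb hdb hbb hg using hch
  have hanti : ∀ (ρ : W ll) (n m : ℕ), n ≤ m → b ρ m ≤ b ρ n := fun ρ n m h =>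
    antitone_nat_of_succ_le (fun k => (hs.lt _ _ (hbb ρ k)).le) h
  have hdc : ∀ (ρ : W ll) (n : ℕ), ∀ h ∈ rg (c ρ n), ll (d ρ) h := fun ρ n h hh =>
    hs.lle _ _ _ (hdb ρ (n + 1)) (hs.lt _ _ (hcb ρ n h hh).1).le
  have hsub : ∀ (s : List ℕ) (ρ : W ll), rg (s.foldl c ρ) ⊆ rg ρ := by
    intro s
    induction s with
    | nil => exact fun ρ => subset_rfl
    | cons n s ih => exact fun ρ => (ih (c ρ n)).trans (hc ρ n)
  have hmem : ∀ (s : List ℕ) (ρ : W ll), d (s.foldl c ρ) ∈ rg ρ := fun s ρ => hsub s ρ (hd _)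
  have hlt : ∀ (ρ : W ll) (n m : ℕ), n < m → ∀ x ∈ rg (c ρ m), ∀ y ∈ rg (c ρ n), ll x y := by
    intro ρ n m hnm x hx y hy
    exact hs.lle _ _ _ (hcb ρ m x hx).2 ((hanti ρ _ _ hnm).trans (hs.lt _ _ (hcb ρ n y hy).1).le)
  have hchain : ∀ (s t : List ℕ) (ρ : W ll), d (s.foldl c ρ) = d (t.foldl c ρ) ∨
      ll (d (s.foldl c ρ)) (d (t.foldl c ρ)) ∨ ll (d (t.foldl c ρ)) (d (s.foldl c ρ)) := by
    intro s
    induction s with
    | nil =>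
      intro t ρ
      cases t with
      | nil => exact Or.inl rfl
      | cons n t => exact Or.inr (Or.inl (hdc ρ n _ (hmem t (c ρ n))))
    | cons n s ih =>
      intro t ρ
      cases t with
      | nil => exact Or.inr (Or.inr (hdc ρ n _ (hmem s (c ρ n))))
      | cons m t =>
        rcases lt_trichotomy n m with h | h | h
        · exact Or.inr (Or.inr (hlt ρ n m h _ (hmem t (c ρ m)) _ (hmem s (c ρ n))))
        · subst h
          exact ih t (c ρ n)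
        · exact Or.inr (Or.inl (hlt ρ m n h _ (hmem s (c ρ n)) _ (hmem t (c ρ m))))
  refine ⟨Set.range fun s : List ℕ => d (s.foldl c ρ₀), ⟨_, [], rfl⟩, ?_, ?_, ?_⟩
  · rintro _ ⟨s, rfl⟩
    exact hmem s ρ₀
  · rintro _ ⟨s, rfl⟩ _ ⟨t, rfl⟩
    exact hchain s t ρ₀
  · rintro _ ⟨s, rfl⟩ g' - hlt' hh
    exfalso
    refine absurd (hg (s.foldl c ρ₀) g' fun j => ?_) (not_le_of_gt hlt')
    have e : (s ++ [j]).foldl c ρ₀ = c (s.foldl c ρ₀) j := by simp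
    have h1 : ll (d (s.foldl c ρ₀)) (d (c (s.foldl c ρ₀) j)) := hdc _ j _ (hd _)
    have h2 := hh (d (c (s.foldl c ρ₀) j)) ⟨s ++ [j], by simp only [e]⟩ h1
    exact ((hs.lt _ _ h2).trans (hs.lt _ _ (hcb _ j _ (hd _)).2)).le

end

theorem tree (hU : S_UP) (hP : S_WPT) : S_TREE := by
  intro Φ _ ll hs L U hne
  by_contra hnt
  exact hnt (tree_aux hU hP hs ⟨(L, U), hne, hnt⟩)

end Pool.Agent.Y237.SP
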